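import Mathlib
import Pool.Agent.Run7.h222.KMinusMain

/-!
The orientable genus of the complete graph minus an edge on `n ≡ 2 (mod 24)` vertices.

`orientableGenus`, `HasGenus` and `RotationSystem` are defined in
`Pool.Agent.Run7.h222.Genus`.
-/

set_option autoImplicit false

namespace Pool.Agent.Results.MP_a803c6_co.GenusCompleteMinusEdge

open Run7.h222.Genus SimpleGraph

/-- Every dart of `K_n - K_2` (`n ≥ 5`) has a companion dart at its initial vertex. -/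
lemma degree_two (n : ℕ) (hn : 5 ≤ n) (a b : Fin n)
    (d : ((⊤ : SimpleGraph (Fin n)).deleteEdges {s(a, b)}).Dart) :
    ∃ e : ((⊤ : SimpleGraph (Fin n)).deleteEdges {s(a, b)}).Dart, e.fst = d.fst ∧ e ≠ d := by
  classical
  have : ∃ v : Fin n, v ∉ ({a, b, d.fst, d.snd} : Finset (Fin n)) := by
    by_contra hcon
    push Not at hcon
    have h1 : (Finset.univ : Finset (Fin n)) ⊆ {a, b, d.fst, d.snd} := fun v _ => hcon v
    have h2 := Finset.card_le_card h1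
    rw [Finset.card_univ, Fintype.card_fin] at h2
    have h3 : ({a, b, d.fst, d.snd} : Finset (Fin n)).card ≤ 4 := Finset.card_le_four
    omega
  obtain ⟨v, hv⟩ := this
  simp only [Finset.mem_insert, Finset.mem_singleton, not_or] at hv
  have hadj : ((⊤ : SimpleGraph (Fin n)).deleteEdges {s(a, b)}).Adj d.fst v := by
    rw [SimpleGraph.deleteEdges_adj, SimpleGraph.top_adj, Set.mem_singleton_iff, Sym2.eq_iff]
    refine ⟨fun h => hv.2.2.1 h.symm, ?_⟩
    rintro (⟨-, h⟩ | ⟨-, h⟩)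
    · exact hv.2.1 h
    · exact hv.1 h
  refine ⟨⟨(d.fst, v), hadj⟩, rfl, ?_⟩
  intro h
  apply hv.2.2.2
  have := congrArg (fun x : ((⊤ : SimpleGraph (Fin n)).deleteEdges {s(a, b)}).Dart => x.snd) h
  exact this

lemma hasGenus_iff_aux (s : ℕ) (hs : 1 ≤ s) (a b : Fin (24 * s + 2)) (hab : a ≠ b)
    (R : RotationSystem ((⊤ : SimpleGraph (Fin (24 * s + 2))).deleteEdges {s(a, b)})) :
    (Nat.card ((⊤ : SimpleGraph (Fin (24 * s + 2))).deleteEdges {s(a, b)}).edgeSet : ℤ)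
      = 288 * (s : ℤ) ^ 2 + 36 * s ∧
    3 * (R.numFaces : ℤ) ≤ 2 * (288 * (s : ℤ) ^ 2 + 36 * s) ∧
    (Nat.card ((⊤ : SimpleGraph (Fin (24 * s + 2))).deleteEdges {s(a, b)}).Dart : ℤ)
      = 2 * (288 * (s : ℤ) ^ 2 + 36 * s) := by
  have hE := card_edgeSet (24 * s + 2) a b hab
  have hch : (24 * s + 2).choose 2 = 288 * s ^ 2 + 36 * s + 1 := by
    rw [Nat.choose_two_right]
    have : (24 * s + 2) * (24 * s + 2 - 1) = 2 * (288 * s ^ 2 + 36 * s + 1) := by
      rw [show 24 * s + 2 - 1 = 24 * s + 1 by omega]; ring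
    rw [this]
    omega
  rw [hch] at hE
  have hE' : Nat.card ((⊤ : SimpleGraph (Fin (24 * s + 2))).deleteEdges {s(a, b)}).edgeSet
      = 288 * s ^ 2 + 36 * s := by omega
  have hD := card_dart (24 * s + 2) ((⊤ : SimpleGraph (Fin (24 * s + 2))).deleteEdges {s(a, b)})
  rw [hE'] at hD
  have hF := R.three_mul_numFaces_le (degree_two (24 * s + 2) (by omega) a b)
  refine ⟨by rw [hE']; push_cast; ring, ?_, by rw [hD]; push_cast; ring⟩
  rw [hD] at hF
  exact_mod_cast hF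

lemma genus_value (s : ℕ) (hs : 1 ≤ s) (a b : Fin (24 * s + 2)) (hab : a ≠ b) :
    HasGenus ((⊤ : SimpleGraph (Fin (24 * s + 2))).deleteEdges {s(a, b)}) (48 * s ^ 2 - 6 * s) ∧
    ∀ g, HasGenus ((⊤ : SimpleGraph (Fin (24 * s + 2))).deleteEdges {s(a, b)}) g →
      48 * s ^ 2 - 6 * s ≤ g := by
  have hsub : ((48 * s ^ 2 - 6 * s : ℕ) : ℤ) = 48 * (s : ℤ) ^ 2 - 6 * s := by
    have : 6 * s ≤ 48 * s ^ 2 := by nlinarith
    push_cast [Nat.cast_sub this]
    ring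
  constructor
  · obtain ⟨nxt, hnxt⟩ := exists_triNext s hs
    obtain ⟨e⟩ := exists_iso s hs a b hab
    obtain ⟨R, hR⟩ := (hnxt.map e).exists_rotationSystem
    obtain ⟨h1, h2, h3⟩ := hasGenus_iff_aux s hs a b hab R
    refine ⟨R, ?_⟩
    have hR' : (Nat.card ((⊤ : SimpleGraph (Fin (24 * s + 2))).deleteEdges {s(a, b)}).Dart : ℤ)
      ≤ 3 * (R.numFaces : ℤ) := by exact_mod_cast hR
    rw [h1, hsub, Nat.card_eq_fintype_card, Fintype.card_fin]
    rw [h3] at hR'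
    push_cast
    linarith
  · rintro g ⟨R, hR⟩
    obtain ⟨h1, h2, h3⟩ := hasGenus_iff_aux s hs a b hab R
    rw [h1, Nat.card_eq_fintype_card, Fintype.card_fin] at hR
    push_cast at hR
    have : ((48 * s ^ 2 - 6 * s : ℕ) : ℤ) ≤ (g : ℤ) := by
      rw [hsub]
      linarith
    exact_mod_cast this

/-- **The genus of `K_n - K_2` for `n ≡ 2 (mod 24)`.**  For every `n ≥ 3` with `n ≡ 2 (mod 24)`
and every edge `ab` of `K_n`, the orientable genus of `K_n` minus the edge `ab` is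
`⌈((n-3)(n-4)-2)/12⌉` (and it is attained by a rotation system). -/
theorem result (n : ℕ) (hn : 3 ≤ n) (h24 : n % 24 = 2) (a b : Fin n) (hab : a ≠ b) :
    (orientableGenus ((⊤ : SimpleGraph (Fin n)).deleteEdges {s(a, b)}) : ℤ)
        = ⌈(((n : ℝ) - 3) * ((n : ℝ) - 4) - 2) / 12⌉ ∧
      HasGenus ((⊤ : SimpleGraph (Fin n)).deleteEdges {s(a, b)})
        (orientableGenus ((⊤ : SimpleGraph (Fin n)).deleteEdges {s(a, b)})) := by
  obtain ⟨s, rfl⟩ : ∃ s, n = 24 * s + 2 := ⟨n / 24, by omega⟩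
  have hs : 1 ≤ s := by omega
  obtain ⟨h1, h2⟩ := genus_value s hs a b hab
  have hval : orientableGenus ((⊤ : SimpleGraph (Fin (24 * s + 2))).deleteEdges {s(a, b)})
      = 48 * s ^ 2 - 6 * s :=
    le_antisymm (Nat.sInf_le h1) (le_csInf ⟨_, h1⟩ fun g hg => h2 g hg)
  have hsub : ((48 * s ^ 2 - 6 * s : ℕ) : ℤ) = 48 * (s : ℤ) ^ 2 - 6 * s := by
    have : 6 * s ≤ 48 * s ^ 2 := by nlinarith
    push_cast [Nat.cast_sub this]
    ring
  refine ⟨?_, by rw [hval]; exact h1⟩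
  rw [hval, hsub]
  have : ((((24 * s + 2 : ℕ) : ℝ) - 3) * (((24 * s + 2 : ℕ) : ℝ) - 4) - 2) / 12
      = ((48 * (s : ℤ) ^ 2 - 6 * s : ℤ) : ℝ) := by
    push_cast
    ring
  rw [this, Int.ceil_intCast]

end Pool.Agent.Results.MP_a803c6_co.GenusCompleteMinusEdge
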